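import Pool.Agent.helper12.KZ.Spec
import Pool.Agent.helper13.DI.B10

/-! Project kz, row KBC: Clifford theory for `K ≤ N ≤ Γ` with `N / K` cyclic. -/

set_option autoImplicit false

namespace Pool.Agent.KZ

open Pool.Agent.helper58.DC Pool.Agent.DI Pool.Agent.TY

theorem KBC (hIRT : IRT_stmt) (hB9 : Pool.Agent.DI.B9_stmt) : KBC_stmt := by
  intro Γ _ _ K N hKN hcyc
  have hinf : N ⊓ K = K := inf_eq_right.2 hKN
  obtain ⟨h1, h2, h3⟩ := hB9 N (K.subgroupOf N) hcyc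
  have key : (∀ φ ∈ IrrOn N, ∃ ψ ∈ IrrOn (N ⊓ K), OverP (N ⊓ K) N φ ψ) ∧
      (∀ ψ ∈ IrrOn (N ⊓ K), Nat.card {φ : Γ → ℂ // φ ∈ IrrOn N ∧ OverP (N ⊓ K) N φ ψ} *
        Nat.card (N ⊓ K : Subgroup Γ) = Nat.card (stF N ψ)) ∧
      (∀ φ : Γ → ℂ, ∀ ψ ∈ IrrOn (N ⊓ K), ∀ ψ' ∈ IrrOn (N ⊓ K), OverP (N ⊓ K) N φ ψ →
        OverP (N ⊓ K) N φ ψ' → ∃ n ∈ N, ψ' = funMap (MulAut.conj n) ψ) := by
    refine ⟨?_, ?_, ?_⟩
    · intro φ hφ
      obtain ⟨f, hf, hov⟩ := h1 (B10_res N φ) hφ.2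
      have hs := B10_ex_supp N f
      refine ⟨B10_ex N f, ?_, ?_⟩
      · rw [B10_irrK N hIRT K _ hs, B10_res_ex]
        exact hf
      · rw [B10_over N K _ _ hs, B10_res_ex]
        exact hov
    · intro ψ hψ
      have hs := B10_supp_of_irr N K ψ hψ
      have h4 := h2 (B10_res N ψ) ((B10_irrK N hIRT K ψ hs).1 hψ)
      have e1 : Nat.card {φ : Γ → ℂ // φ ∈ IrrOn N ∧ OverP (N ⊓ K) N φ ψ} =
          Nat.card {φ : N → ℂ // φ ∈ Irr N ∧ OverP (K.subgroupOf N) ⊤ φ (B10_res N ψ)} := by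
        refine Nat.card_congr
          { toFun := fun φ => ⟨B10_res N φ.1, φ.2.1.2, (B10_over N K _ _ hs).1 φ.2.2⟩
            invFun := fun f => ⟨B10_ex N f.1, B10_ex_irr N f.1 f.2.1, ?_⟩
            left_inv := ?_
            right_inv := ?_ }
        · rw [B10_over N K _ _ hs, B10_res_ex]
          exact f.2.2
        · intro φ
          exact Subtype.ext (B10_ex_res N φ.1 φ.2.1.1)
        · intro f
          exact Subtype.ext (B10_res_ex N f.1)
      have e2 : Nat.card (N ⊓ K : Subgroup Γ) = Nat.card (K.subgroupOf N) :=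
        (Nat.card_congr (B10_iso N K).toEquiv).symm
      have e3 : Nat.card (stF N ψ) = Nat.card (stF (⊤ : Subgroup N) (B10_res N ψ)) := by
        rw [← B10_stab N ψ hs]
        exact Subgroup.card_map_of_injective N.subtype_injective
      rw [e1, e2, e3]
      exact h4
    · intro φ ψ hψ ψ' hψ' hov hov'
      have hs := B10_supp_of_irr N K ψ hψ
      have hs' := B10_supp_of_irr N K ψ' hψ'
      obtain ⟨n, hn⟩ := h3 (B10_res N φ) (B10_res N ψ) ((B10_irrK N hIRT K ψ hs).1 hψ)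
        (B10_res N ψ') ((B10_irrK N hIRT K ψ' hs').1 hψ') ((B10_over N K _ _ hs).1 hov)
        ((B10_over N K _ _ hs').1 hov')
      refine ⟨(n : Γ), n.2, ?_⟩
      apply B10_res_inj N _ _ hs' (B10_conj_supp N ψ hs _ n.2)
      rw [hn, B10_res_conj]
  rw [hinf] at key
  exact key

end Pool.Agent.KZ
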