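import Pool.Agent.helper12.KZ.Spec

/-! Project kz, row KEQ: the correction terms. -/

set_option autoImplicit false

namespace Pool.Agent.KZ

open Pool.Agent.helper58.DC Pool.Agent.DI Pool.Agent.TY

section

variable {E : Type} [Group E]

theorem KEQ_comm {Q : Subgroup E} {m q : E} (hm : m ∈ cz Q) (hq : q ∈ Q) : q * m = m * q :=
  (Subgroup.mem_centralizer_iff.1 hm) q hq

instance KEQ_normal (Q : Subgroup E) : (Q.subgroupOf (cz Q)).Normal := by
  refine ⟨fun q hq m => ?_⟩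
  rw [Subgroup.mem_subgroupOf] at hq ⊢
  have h : (m : E) * (q : E) * (m : E)⁻¹ = q := by
    rw [← KEQ_comm m.2 hq, mul_assoc, mul_inv_cancel, mul_one]
  show (m : E) * (q : E) * (m : E)⁻¹ ∈ Q
  rw [h]
  exact hq

/-- conjugation -/
def KEQ_act0 (G' Q : Subgroup E) (hN : G'.Normal) : ↥(cz Q) →* MulAut ↥(G' ⊓ cz Q) where
  toFun m :=
    { toFun := fun k => ⟨(m : E) * k * (m : E)⁻¹, hN.conj_mem _ k.2.1 _,
        (cz Q).mul_mem ((cz Q).mul_mem m.2 k.2.2) ((cz Q).inv_mem m.2)⟩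
      invFun := fun k => ⟨(m : E)⁻¹ * k * m, by
          have h := hN.conj_mem _ k.2.1 (m : E)⁻¹
          rwa [inv_inv] at h,
        (cz Q).mul_mem ((cz Q).mul_mem ((cz Q).inv_mem m.2) k.2.2) m.2⟩
      left_inv := fun k => by
        apply Subtype.ext
        show (m : E)⁻¹ * ((m : E) * k * (m : E)⁻¹) * m = k
        group
      right_inv := fun k => by
        apply Subtype.ext
        show (m : E) * ((m : E)⁻¹ * k * m) * (m : E)⁻¹ = k
        group
      map_mul' := fun k k' => by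
        apply Subtype.ext
        show (m : E) * (k * k') * (m : E)⁻¹ = (m : E) * k * (m : E)⁻¹ * ((m : E) * k' * (m : E)⁻¹)
        group }
  map_one' := by
    ext k
    show (1 : E) * k * (1 : E)⁻¹ = k
    group
  map_mul' m m' := by
    ext k
    show ((m : E) * m') * k * ((m : E) * m')⁻¹ = (m : E) * ((m' : E) * k * (m' : E)⁻¹) * (m : E)⁻¹
    group

theorem KEQ_act0_apply (G' Q : Subgroup E) (hN : G'.Normal) (m : ↥(cz Q)) (k : ↥(G' ⊓ cz Q)) :
    ((KEQ_act0 G' Q hN m k : ↥(G' ⊓ cz Q)) : E) = (m : E) * k * (m : E)⁻¹ := rfl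

theorem KEQ_act0_one (G' Q : Subgroup E) (hN : G'.Normal) (m : ↥(cz Q))
    (hm : m ∈ Q.subgroupOf (cz Q)) : KEQ_act0 G' Q hN m = 1 := by
  ext k
  rw [KEQ_act0_apply]
  have h := KEQ_comm k.2.2 (Subgroup.mem_subgroupOf.1 hm)
  rw [h, mul_assoc, mul_inv_cancel, mul_one]
  rfl

variable {B : Type} [Group B]

/-- the extension -/
def KEQ_Y (G' Q : Subgroup E) (hN : G'.Normal) (hQ : Q ≤ cz Q) (hQG : Q ⊓ G' = ⊥)
    (f : ↥(cz Q) →* B) (hs : Function.Surjective f)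
    (hf : ∀ m, f m = 1 ↔ ∃ q ∈ Q, (m : E) * q⁻¹ ∈ G') :
    Extension ↥(G' ⊓ cz Q) (↥(cz Q) ⧸ Q.subgroupOf (cz Q)) B where
  inc := (QuotientGroup.mk' (Q.subgroupOf (cz Q))).comp
    (Subgroup.inclusion (inf_le_right : G' ⊓ cz Q ≤ cz Q))
  proj := QuotientGroup.lift (Q.subgroupOf (cz Q)) f (fun m hm => by
    rw [MonoidHom.mem_ker, hf]
    refine ⟨m, Subgroup.mem_subgroupOf.1 hm, ?_⟩
    rw [mul_inv_cancel]
    exact G'.one_mem)
  inc_injective := by
    rw [injective_iff_map_eq_one]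
    intro k hk
    have h1 : (Subgroup.inclusion (inf_le_right : G' ⊓ cz Q ≤ cz Q)) k ∈ Q.subgroupOf (cz Q) :=
      (QuotientGroup.eq_one_iff _).1 hk
    have h2 : (k : E) ∈ Q := Subgroup.mem_subgroupOf.1 h1
    have h3 : (k : E) ∈ Q ⊓ G' := ⟨h2, k.2.1⟩
    rw [hQG, Subgroup.mem_bot] at h3
    exact Subtype.ext h3
  proj_surjective := by
    intro b
    obtain ⟨m, rfl⟩ := hs b
    exact ⟨QuotientGroup.mk m, rfl⟩
  exact := by
    intro e
    obtain ⟨m, rfl⟩ := QuotientGroup.mk_surjective e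
    constructor
    · intro h
      have h1 : f m = 1 := h
      obtain ⟨q, hq, hmq⟩ := (hf m).1 h1
      refine ⟨⟨(m : E) * q⁻¹, hmq, (cz Q).mul_mem m.2 ((cz Q).inv_mem (hQ hq))⟩, ?_⟩
      refine (QuotientGroup.eq (s := Q.subgroupOf (cz Q))).2 ?_
      rw [Subgroup.mem_subgroupOf]
      show ((m : E) * q⁻¹)⁻¹ * m ∈ Q
      have h2 : ((m : E) * q⁻¹)⁻¹ * m = q := by group
      rw [h2]
      exact hq
    · rintro ⟨k, hk⟩
      rw [← hk]
      show f _ = 1
      rw [hf]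
      refine ⟨1, Q.one_mem, ?_⟩
      rw [inv_one, mul_one]
      exact k.2.1
  act := QuotientGroup.lift (Q.subgroupOf (cz Q)) (KEQ_act0 G' Q hN)
    (fun m hm => KEQ_act0_one G' Q hN m hm)
  act_spec := by
    intro e k
    obtain ⟨m, rfl⟩ := QuotientGroup.mk_surjective e
    rfl

/-- the embedding -/
def KEQ_em (G' Q : Subgroup E) (hN : G'.Normal) (hQ : Q ≤ cz Q) (hQG : Q ⊓ G' = ⊥)
    (f : ↥(cz Q) →* B) (hs : Function.Surjective f)
    (hf : ∀ m, f m = 1 ↔ ∃ q ∈ Q, (m : E) * q⁻¹ ∈ G') :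
    Emb (KEQ_Y G' Q hN hQ hQG f hs hf) G' (cz Q) (Nat.card Q) where
  i := (G' ⊓ cz Q).subtype
  π := QuotientGroup.mk' (Q.subgroupOf (cz Q))
  i_inj := Subgroup.subtype_injective _
  π_surj := QuotientGroup.mk'_surjective _
  range := by rw [Subgroup.range_subtype, inf_comm]
  compat := fun _ _ => rfl
  act := fun _ _ => rfl
  card := by
    rw [QuotientGroup.ker_mk']
    exact Nat.card_congr (Subgroup.subgroupOfEquivOfLe hQ).toEquiv

/-- `Q` has order `p`, and `π.ker = Q ⊔ G'`. -/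
theorem KEQ_card {Γ A : Type} [Group Γ] [Group A] [Finite Γ] (p : ℕ) (hp : p.Prime) (π : Γ →* A)
    (G' Q : Subgroup Γ) (hF : Fr p π G') (hQ : Q ≠ ⊥) (hQk : Q ≤ π.ker) (hQG : Q ⊓ G' = ⊥) :
    Nat.card Q = p ∧ ∀ m ∈ π.ker, ∃ q ∈ Q, m * q⁻¹ ∈ G' := by
  have hnor := hF.nor
  have hfin : Finite (↥π.ker ⧸ G'.subgroupOf π.ker) := inferInstance
  obtain ⟨ψ, hψ⟩ : ∃ ψ : ↥Q →* (↥π.ker ⧸ G'.subgroupOf π.ker),
      ψ = (QuotientGroup.mk' (G'.subgroupOf π.ker)).comp (Subgroup.inclusion hQk) := ⟨_, rfl⟩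
  have hinj : Function.Injective ψ := by
    rw [injective_iff_map_eq_one]
    intro q hq
    rw [hψ] at hq
    have h1 : (Subgroup.inclusion hQk) q ∈ G'.subgroupOf π.ker := (QuotientGroup.eq_one_iff _).1 hq
    have h2 : (q : Γ) ∈ G' := Subgroup.mem_subgroupOf.1 h1
    have h3 : (q : Γ) ∈ Q ⊓ G' := ⟨q.2, h2⟩
    rw [hQG, Subgroup.mem_bot] at h3
    exact Subtype.ext h3
  have hd1 : Nat.card Q ∣ Nat.card (↥π.ker ⧸ G'.subgroupOf π.ker) :=
    Subgroup.card_dvd_of_injective ψ hinj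
  have hd2 : Nat.card (↥π.ker ⧸ G'.subgroupOf π.ker) ∣ p := hF.idx
  have hQ1 : Nat.card Q ≠ 1 := fun h => hQ (Subgroup.card_eq_one.1 h)
  have hQp : Nat.card Q = p := by
    rcases (Nat.dvd_prime hp).1 (hd1.trans hd2) with h | h
    · exact absurd h hQ1
    · exact h
  have hle : Nat.card (↥π.ker ⧸ G'.subgroupOf π.ker) ≤ Nat.card Q := by
    rw [hQp]
    exact Nat.le_of_dvd hp.pos hd2
  have hbij := hinj.bijective_of_nat_card_le hle
  refine ⟨hQp, ?_⟩
  intro m hm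
  obtain ⟨q, hq⟩ := hbij.2 (QuotientGroup.mk (⟨m, hm⟩ : ↥π.ker))
  rw [hψ] at hq
  have h1 : ((Subgroup.inclusion hQk) q)⁻¹ * (⟨m, hm⟩ : ↥π.ker) ∈ G'.subgroupOf π.ker :=
    QuotientGroup.eq.1 hq
  have h2 : (q : Γ)⁻¹ * m ∈ G' := Subgroup.mem_subgroupOf.1 h1
  refine ⟨(q : Γ), q.2, ?_⟩
  have h3 := hnor.conj_mem _ h2 (q : Γ)
  have h4 : (q : Γ) * ((q : Γ)⁻¹ * m) * (q : Γ)⁻¹ = m * (q : Γ)⁻¹ := by group
  rw [h4] at h3
  exact h3

end

theorem KEQ_sum (A : Type) [Group A] (F : Subgroup A → ℤ) :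
    ∑ᶠ U ∈ {U : Subgroup A | U.map (MonoidHom.id A) = ⊤}, F U = F ⊤ := by
  have e : {U : Subgroup A | U.map (MonoidHom.id A) = ⊤} = {(⊤ : Subgroup A)} := by
    ext U
    rw [Set.mem_singleton_iff]
    constructor
    · intro hU
      have hU' : U.map (MonoidHom.id A) = ⊤ := hU
      rwa [Subgroup.map_id] at hU'
    · intro hU
      show U.map (MonoidHom.id A) = ⊤
      rw [Subgroup.map_id, hU]
  rw [e, finsum_mem_singleton]

theorem KEQ_one (A : Type) [Group A] :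
    Nat.card ((⊤ : Subgroup A) ⊓ (MonoidHom.id A).ker : Subgroup A) = 1 := by
  have e : ((⊤ : Subgroup A) ⊓ (MonoidHom.id A).ker : Subgroup A) = ⊥ := by
    rw [top_inf_eq, (MonoidHom.ker_eq_bot_iff _).2 Function.injective_id]
  rw [e]
  exact Subgroup.card_bot

theorem KEQ (hKCS : KCS_stmt) (hKAN : KAN_stmt) (hA2 : A2_stmt) (hA4 : A4_stmt) (hA7 : A7_stmt)
    (hA8 : A8_stmt) (hA14 : A14_stmt) (hC15 : C15_stmt) : KEQ_stmt := by
  classical
  intro Γ A _ _ _ p hpf M hM hpM hN π G' G₀ hFr hG₀ τ d Q hQQ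
  obtain ⟨hQ, hQk, hQp, hQG⟩ := hQQ
  have hnor := hFr.nor
  obtain ⟨-, hQc, -⟩ := hKAN Γ p G' Q ⊤ (fun _ => 0) hnor (fun x q hq => hFr.cen x q (hQk hq)) hQp hQG
  by_cases hmap : (cz Q).map π = ⊤
  · -- `cz Q` normalises `K`
    have hczn : cz Q ≤ nz (G' ⊓ cz Q) := by
      intro m hm
      rw [Subgroup.mem_normalizer_iff]
      intro x
      have h1 : x ∈ G' ↔ m * x * m⁻¹ ∈ G' := by
        constructor
        · intro hx
          exact hnor.conj_mem x hx m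
        · intro hx
          have := hnor.conj_mem _ hx m⁻¹
          simpa [mul_assoc] using this
      have h2 : x ∈ cz Q ↔ m * x * m⁻¹ ∈ cz Q := by
        constructor
        · intro hx
          exact (cz Q).mul_mem ((cz Q).mul_mem hm hx) ((cz Q).inv_mem hm)
        · intro hx
          have := (cz Q).mul_mem ((cz Q).mul_mem ((cz Q).inv_mem hm) hx) hm
          simpa [mul_assoc] using this
      rw [Subgroup.mem_inf, Subgroup.mem_inf, h1, h2]
    obtain ⟨⟨Y, hY⟩, hYall⟩ := hA2 Γ p (G' ⊓ cz Q)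
    obtain ⟨hY1, hY2, hY3, hY4, -⟩ := hYall Y hY
    by_cases hYb : Y = ⊥
    · subst hYb
      have hOpK : IsOp p (⊤ : Subgroup ↥(G' ⊓ cz Q)) ⊥ :=
        ((hA14 ↥(G' ⊓ cz Q) Γ p (G' ⊓ cz Q).subtype
          (Subgroup.subtype_injective _)).2.2 (G' ⊓ cz Q)).2 hY
      obtain ⟨hcQ, hker⟩ := KEQ_card p hpf.out π G' Q hFr hQ hQk hQG
      have hs : Function.Surjective (π.comp (cz Q).subtype) := by
        intro a
        have h1 : a ∈ (cz Q).map π := by
          rw [hmap]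
          exact Subgroup.mem_top a
        obtain ⟨m, hm, rfl⟩ := Subgroup.mem_map.1 h1
        exact ⟨⟨m, hm⟩, rfl⟩
      have hf : ∀ m : ↥(cz Q), (π.comp (cz Q).subtype) m = 1 ↔ ∃ q ∈ Q, (m : Γ) * q⁻¹ ∈ G' := by
        intro m
        constructor
        · intro h
          exact hker m h
        · rintro ⟨q, hq, h⟩
          have h1 : (m : Γ) * q⁻¹ ∈ π.ker := hFr.le h
          have h2 : (m : Γ) * q⁻¹ * q ∈ π.ker := π.ker.mul_mem h1 (hQk hq)
          rw [inv_mul_cancel_right] at h2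
          exact h2
      obtain ⟨R, hR1, hR2⟩ := hC15 ↥(G' ⊓ cz Q) M
      have e5 := hKCS ↥(G' ⊓ cz Q) (↥(cz Q) ⧸ Q.subgroupOf (cz Q)) A A Γ
        (KEQ_Y G' Q hnor hQc hQG (π.comp (cz Q).subtype) hs hf) G' (cz Q) G₀ (Nat.card Q)
        (KEQ_em G' Q hnor hQc hQG (π.comp (cz Q).subtype) hs hf) p p M hM hpM hN π
        (MonoidHom.id A) hFr hG₀ (fun _ => rfl) τ d R hR1 hR2
      have e4 := hA8 ↥(G' ⊓ cz Q) Γ p (G' ⊓ cz Q).subtype (Subgroup.subtype_injective _) (cz Q)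
        (gst p M π G₀ τ d)
      rw [Subgroup.range_subtype] at e4
      have e3 := hA7 Γ p (G' ⊓ cz Q) ⊥ (cz Q) (gst p M π G₀ τ d) hY (inf_le_left.trans hczn)
      have e6 := e3.symm.trans (e4.symm.trans e5)
      rw [e6]
      refine ⟨∑ b ∈ R.filter (fun b => Cov M G₀ τ (ext0 (G' ⊓ cz Q).subtype b)),
        altSum (KEQ_Y G' Q hnor hQc hQG (π.comp (cz Q).subtype) hs hf) p M b (d - 1) ⊤, ?_, ?_⟩
      · rw [Finset.sum_filter, Finset.mul_sum, Finset.mul_sum, Finset.mul_sum]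
        refine Finset.sum_congr rfl fun b _ => ?_
        by_cases hc : Cov M G₀ τ (ext0 (G' ⊓ cz Q).subtype b)
        · rw [if_pos hc]
          refine (if_pos hc).trans ?_
          rw [KEQ_sum, KEQ_one, hcQ, mul_one, padicValNat.self hpf.out.one_lt]
          push_cast
          ring
        · rw [if_neg hc]
          refine (if_neg hc).trans ?_
          simp
      · intro e he
        refine Finset.dvd_sum fun b hb => ?_
        exact he _ _ hOpK b (hR1 b (Finset.mem_filter.1 hb).1)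
    · refine ⟨0, ?_, fun e _ => dvd_zero e⟩
      rw [mul_zero, mul_zero, mul_zero]
      refine hA4 Γ p (G' ⊓ cz Q) ⊥ (cz Q) Y _ hY2 hY1 hY3
        ((inf_le_left.trans hczn).trans hY4) ?_
      intro h
      exact hYb (le_bot_iff.1 h)
  · refine ⟨0, ?_, fun e _ => dvd_zero e⟩
    rw [mul_zero, mul_zero, mul_zero]
    unfold cSum
    refine finsum_mem_eq_zero_of_forall_eq_zero fun C _ => ?_
    have h1 : gst p M π G₀ τ d (cz Q ⊓ nrm C) = 0 := by
      unfold gst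
      rw [if_neg]
      intro h
      apply hmap
      rw [eq_top_iff, ← h]
      exact Subgroup.map_mono inf_le_left
    rw [h1, mul_zero]

end Pool.Agent.KZ
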